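import Mathlib

namespace Pool.Agent.Results.MP_511af2_al.NewtonForm

open Polynomial

variable {K : Type*} [Field K]

/-- North Vandermonde: distinct scalars `θ j`, polynomials `f i` of degree exactly `i`. -/
def North {d : ℕ} (X : Matrix (Fin (d + 1)) (Fin (d + 1)) K) : Prop :=
  ∃ (θ : Fin (d + 1) → K) (f : Fin (d + 1) → K[X]),
    Function.Injective θ ∧ (∀ i, (f i).degree = ((i : ℕ) : WithBot ℕ)) ∧
      ∀ i j, X i j = X 0 j * (f i).eval (θ j)

/-- Rotation counterclockwise by 90 degrees: `X'_{ij} = X_{j,d-i}`. -/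
def rot {d : ℕ} (X : Matrix (Fin (d + 1)) (Fin (d + 1)) K) :
    Matrix (Fin (d + 1)) (Fin (d + 1)) K := fun i j => X j (Fin.rev i)

/-- Vandermonde in all four directions. -/
def FourWay {d : ℕ} (X : Matrix (Fin (d + 1)) (Fin (d + 1)) K) : Prop :=
  North X ∧ North (rot X) ∧ North (rot (rot X)) ∧ North (rot (rot (rot X)))

omit [Field K] in
theorem rot4 {d : ℕ} (X : Matrix (Fin (d + 1)) (Fin (d + 1)) K) :
    rot (rot (rot (rot X))) = X := by
  ext i j; simp [rot]

theorem FourWay.rot {d : ℕ} {X : Matrix (Fin (d + 1)) (Fin (d + 1)) K} (h : FourWay X) :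
    FourWay (rot X) := ⟨h.2.1, h.2.2.1, h.2.2.2, by rw [rot4]; exact h.1⟩

theorem North.col {d : ℕ} {X : Matrix (Fin (d + 1)) (Fin (d + 1)) K} (h : North X)
    {j : Fin (d + 1)} (hj : X 0 j = 0) (i : Fin (d + 1)) : X i j = 0 := by
  obtain ⟨θ, f, -, -, hX⟩ := h
  rw [hX i j, hj, zero_mul]

/-- if row `i` vanishes, at most `i` top entries are nonzero -/
theorem North.row [DecidableEq K] {d : ℕ} {X : Matrix (Fin (d + 1)) (Fin (d + 1)) K} (h : North X)
    {i : Fin (d + 1)} (hi : ∀ j, X i j = 0) :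
    (Finset.univ.filter (fun j => X 0 j ≠ 0)).card ≤ (i : ℕ) := by
  obtain ⟨θ, f, hθ, hf, hX⟩ := h
  have hne : f i ≠ 0 := by
    intro h0
    have := hf i
    rw [h0, degree_zero] at this
    exact absurd this (by simp)
  have hdeg : (f i).natDegree = (i : ℕ) := natDegree_eq_of_degree_eq_some (hf i)
  have h1 : (Finset.univ.filter (fun j => X 0 j ≠ 0)).image θ ⊆ (f i).roots.toFinset := by
    intro x hx
    rw [Finset.mem_image] at hx
    obtain ⟨j, hj, rfl⟩ := hx
    rw [Finset.mem_filter] at hj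
    rw [Multiset.mem_toFinset, mem_roots hne, IsRoot.def]
    have := hX i j
    rw [hi j] at this
    rcases mul_eq_zero.mp this.symm with h | h
    · exact absurd h hj.2
    · exact h
  calc (Finset.univ.filter (fun j => X 0 j ≠ 0)).card
      = ((Finset.univ.filter (fun j => X 0 j ≠ 0)).image θ).card :=
        (Finset.card_image_of_injective _ hθ).symm
    _ ≤ (f i).roots.toFinset.card := Finset.card_le_card h1
    _ ≤ Multiset.card (f i).roots := Multiset.toFinset_card_le _
    _ ≤ (f i).natDegree := card_roots' _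
    _ = i := hdeg

theorem border_aux [DecidableEq K] {d : ℕ} {X : Matrix (Fin (d + 1)) (Fin (d + 1)) K} (h : FourWay X) (h0 : X ≠ 0) :
    ∀ j, X 0 j ≠ 0 := by
  obtain ⟨hN, hE, hS, hW⟩ := h
  -- zero columns
  have colN : ∀ j, X 0 j = 0 → ∀ i, X i j = 0 := fun j hj i => hN.col hj i
  have colS : ∀ j, X (Fin.last d) j = 0 → ∀ i, X i j = 0 := by
    intro j hj i
    have := hS.col (j := Fin.rev j) (by simpa [rot] using hj) (Fin.rev i)
    simpa [rot] using this
  have rowE : ∀ i, X i (Fin.last d) = 0 → ∀ j, X i j = 0 := by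
    intro i hi j
    have := hE.col (j := i) (by simpa [rot] using hi) (Fin.rev j)
    simpa [rot] using this
  have rowW : ∀ i, X i 0 = 0 → ∀ j, X i j = 0 := by
    intro i hi j
    have := hW.col (j := Fin.rev i) (by simpa [rot] using hi) j
    simpa [rot] using this
  set C := Finset.univ.filter (fun j => X 0 j ≠ 0) with hC
  set R := Finset.univ.filter (fun i => X i 0 ≠ 0) with hR
  -- zero rows bounds
  have rN : ∀ i, X i 0 = 0 → C.card ≤ (i : ℕ) := fun i hi => hN.row (rowW i hi)
  have rS : ∀ i, X i 0 = 0 → C.card ≤ ((Fin.rev i : Fin (d + 1)) : ℕ) := by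
    intro i hi
    have h1 := hS.row (i := Fin.rev i) (by intro j; simpa [rot] using rowW i hi (Fin.rev j))
    refine le_trans (Finset.card_le_card_of_injOn Fin.rev ?_ (Fin.rev_injective.injOn)) h1
    intro j hj
    simp only [hC, Finset.coe_filter, Finset.mem_univ, true_and, Set.mem_ofPred_eq] at hj ⊢
    intro h2
    apply hj
    have : X (Fin.last d) j = 0 := by simpa [rot] using h2
    exact colS j this 0
  have cE : ∀ j, X 0 j = 0 → R.card ≤ ((Fin.rev j : Fin (d + 1)) : ℕ) := by
    intro j hj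
    have h1 := hE.row (i := Fin.rev j) (by intro i; simpa [rot] using colN j hj i)
    refine le_trans (Finset.card_le_card_of_injOn id ?_ (Function.injective_id.injOn)) h1
    intro i hi
    simp only [hR, Finset.coe_filter, Finset.mem_univ, true_and, Set.mem_ofPred_eq, id] at hi ⊢
    intro h2
    apply hi
    have : X i (Fin.last d) = 0 := by simpa [rot] using h2
    exact rowE i this 0
  have cW : ∀ j, X 0 j = 0 → R.card ≤ (j : ℕ) := by
    intro j hj
    have h1 := hW.row (i := j) (by intro i; simpa [rot] using colN j hj (Fin.rev i))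
    refine le_trans (Finset.card_le_card_of_injOn Fin.rev ?_ (Fin.rev_injective.injOn)) h1
    intro i hi
    simp only [hR, Finset.coe_filter, Finset.mem_univ, true_and, Set.mem_ofPred_eq] at hi ⊢
    intro h2
    apply hi
    simpa [rot] using h2
  -- counting
  have hRc : (Finset.univ.filter (fun i : Fin (d + 1) => ¬ X i 0 ≠ 0)).card + R.card = d + 1 := by
    rw [hR, add_comm, Finset.card_filter_add_card_filter_not]; simp
  have hCc : (Finset.univ.filter (fun j : Fin (d + 1) => ¬ X 0 j ≠ 0)).card + C.card = d + 1 := by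
    rw [hC, add_comm, Finset.card_filter_add_card_filter_not]; simp
  have bR : (Finset.univ.filter (fun i : Fin (d + 1) => ¬ X i 0 ≠ 0)).card ≤
      (Finset.Icc C.card (d - C.card)).card := by
    refine Finset.card_le_card_of_injOn Fin.val ?_ (Fin.val_injective.injOn)
    intro i hi
    simp only [Finset.coe_filter, Finset.mem_univ, true_and, Set.mem_ofPred_eq, not_not] at hi
    have h1 := rN i hi
    have h2 := rS i hi
    rw [Fin.val_rev] at h2
    have h3 := i.2
    simp only [Finset.coe_Icc, Set.mem_Icc]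
    omega
  have bC : (Finset.univ.filter (fun j : Fin (d + 1) => ¬ X 0 j ≠ 0)).card ≤
      (Finset.Icc R.card (d - R.card)).card := by
    refine Finset.card_le_card_of_injOn Fin.val ?_ (Fin.val_injective.injOn)
    intro i hi
    simp only [Finset.coe_filter, Finset.mem_univ, true_and, Set.mem_ofPred_eq, not_not] at hi
    have h1 := cW i hi
    have h2 := cE i hi
    rw [Fin.val_rev] at h2
    have h3 := i.2
    simp only [Finset.coe_Icc, Set.mem_Icc]
    omega
  rw [Nat.card_Icc] at bR bC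
  have hCpos : 0 < C.card := by
    rw [Finset.card_pos]
    by_contra hemp
    rw [Finset.not_nonempty_iff_eq_empty] at hemp
    apply h0
    ext i j
    have : X 0 j = 0 := by
      by_contra hne
      have : j ∈ C := by rw [hC, Finset.mem_filter]; exact ⟨Finset.mem_univ _, hne⟩
      rw [hemp] at this
      exact absurd this (Finset.notMem_empty _)
    simpa using colN j this i
  have hRpos : 0 < R.card := by
    rw [Finset.card_pos]
    by_contra hemp
    rw [Finset.not_nonempty_iff_eq_empty] at hemp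
    apply h0
    ext i j
    have : X i 0 = 0 := by
      by_contra hne
      have : i ∈ R := by rw [hR, Finset.mem_filter]; exact ⟨Finset.mem_univ _, hne⟩
      rw [hemp] at this
      exact absurd this (Finset.notMem_empty _)
    simpa using rowW i this j
  have hfull : (Finset.univ.filter (fun j : Fin (d + 1) => ¬ X 0 j ≠ 0)).card = 0 := by omega
  intro j hj
  rw [Finset.card_eq_zero] at hfull
  have : j ∈ Finset.univ.filter (fun j : Fin (d + 1) => ¬ X 0 j ≠ 0) := by
    rw [Finset.mem_filter]; exact ⟨Finset.mem_univ _, by simpa using hj⟩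
  rw [hfull] at this
  exact absurd this (Finset.notMem_empty _)

theorem border {d : ℕ} {X : Matrix (Fin (d + 1)) (Fin (d + 1)) K} (h : FourWay X) (h0 : X ≠ 0) :
    ∀ j, X 0 j ≠ 0 := by
  classical
  exact border_aux h h0

omit [Field K] in
theorem rot_ne {d : ℕ} [Zero K] {X : Matrix (Fin (d + 1)) (Fin (d + 1)) K} (h0 : X ≠ 0) :
    rot X ≠ 0 := by
  intro h
  apply h0
  rw [← rot4 X, h]
  ext i j; simp [rot]

theorem North.det_ne {d : ℕ} {X : Matrix (Fin (d + 1)) (Fin (d + 1)) K} (h : North X)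
    (h0 : ∀ j, X 0 j ≠ 0) : X.det ≠ 0 := by
  classical
  obtain ⟨θ, f, hθ, hf, hX⟩ := h
  intro hdet
  obtain ⟨v, hv, hvX⟩ := Matrix.exists_vecMul_eq_zero_iff.mpr hdet
  set P : K[X] := ∑ i, C (v i) * f i with hP
  have hne : ∀ i, f i ≠ 0 := by
    intro i h0
    have := hf i
    rw [h0, degree_zero] at this
    exact absurd this (by simp)
  have hnd : ∀ i, (f i).natDegree = (i : ℕ) := fun i => natDegree_eq_of_degree_eq_some (hf i)
  have hev : ∀ j, P.eval (θ j) = 0 := by
    intro j
    have h1 := congrFun hvX j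
    rw [Matrix.vecMul, dotProduct] at h1
    have h2 : ∑ i, v i * X i j = X 0 j * P.eval (θ j) := by
      rw [hP, eval_finsetSum, Finset.mul_sum]
      refine Finset.sum_congr rfl fun i _ => ?_
      rw [eval_mul, eval_C, hX i j]; ring
    rw [h2] at h1
    rcases mul_eq_zero.mp h1 with h | h
    · exact absurd h (h0 j)
    · exact h
  have hPd : P.natDegree ≤ d := by
    rw [hP]
    refine natDegree_sum_le_of_forall_le _ _ fun i _ => ?_
    refine le_trans (natDegree_C_mul_le _ _) ?_
    rw [hnd i]; have := i.2; omega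
  have hP0 : P = 0 := by
    refine eq_zero_of_natDegree_lt_card_of_eval_eq_zero P hθ hev ?_
    rw [Fintype.card_fin]; omega
  -- take the largest index with v i ≠ 0
  have hex : (Finset.univ.filter (fun i => v i ≠ 0)).Nonempty := by
    by_contra hemp
    rw [Finset.not_nonempty_iff_eq_empty] at hemp
    apply hv
    ext i
    by_contra hne
    have : i ∈ Finset.univ.filter (fun i => v i ≠ 0) := by
      rw [Finset.mem_filter]; exact ⟨Finset.mem_univ _, hne⟩
    rw [hemp] at this
    exact absurd this (Finset.notMem_empty _)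
  obtain ⟨m, hm, hmax⟩ := Finset.exists_max_image _ (fun i : Fin (d + 1) => i) hex
  rw [Finset.mem_filter] at hm
  have hc : P.coeff (m : ℕ) = v m * (f m).coeff (m : ℕ) := by
    rw [hP, finsetSum_coeff, Finset.sum_eq_single m]
    · rw [coeff_C_mul]
    · intro i _ him
      rw [coeff_C_mul]
      by_cases hvi : v i = 0
      · rw [hvi, zero_mul]
      · have hle : i ≤ m := hmax i (by rw [Finset.mem_filter]; exact ⟨Finset.mem_univ _, hvi⟩)
        have hlt : i < m := lt_of_le_of_ne hle him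
        rw [coeff_eq_zero_of_natDegree_lt (by rw [hnd i]; exact hlt), mul_zero]
    · intro h; exact absurd (Finset.mem_univ _) h
  rw [hP0, coeff_zero] at hc
  rcases mul_eq_zero.mp hc.symm with h | h
  · exact hm.2 h
  · have h2 := hnd m
    rw [← h2] at h
    exact leadingCoeff_ne_zero.mpr (hne m) h


theorem north_zero {d : ℕ} (θ : Fin (d + 1) → K) (hθ : Function.Injective θ) :
    North (0 : Matrix (Fin (d + 1)) (Fin (d + 1)) K) :=
  ⟨θ, fun i => Polynomial.X ^ (i : ℕ), hθ, fun i => by simp, fun i j => by simp⟩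

theorem rot_zero {d : ℕ} : rot (0 : Matrix (Fin (d + 1)) (Fin (d + 1)) K) = 0 := by
  ext i j; simp [rot]

theorem fourWay_zero_iff {d : ℕ} :
    FourWay (0 : Matrix (Fin (d + 1)) (Fin (d + 1)) K) ↔
      ∃ θ : Fin (d + 1) → K, Function.Injective θ := by
  constructor
  · rintro ⟨⟨θ, f, hθ, -, -⟩, -⟩
    exact ⟨θ, hθ⟩
  · rintro ⟨θ, hθ⟩
    refine ⟨north_zero θ hθ, ?_, ?_, ?_⟩ <;> simp only [rot_zero] <;> exact north_zero θ hθ


theorem fourWay_border {d : ℕ} {X : Matrix (Fin (d + 1)) (Fin (d + 1)) K} (h : FourWay X)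
    (h0 : X ≠ 0) : X.det ≠ 0 ∧ ∀ k, X 0 k ≠ 0 ∧ X (Fin.last d) k ≠ 0 ∧ X k 0 ≠ 0 ∧
      X k (Fin.last d) ≠ 0 := by
  have b0 := border h h0
  have b1 := border h.rot (rot_ne h0)
  have b2 := border h.rot.rot (rot_ne (rot_ne h0))
  have b3 := border h.rot.rot.rot (rot_ne (rot_ne (rot_ne h0)))
  refine ⟨North.det_ne h.1 b0, fun k => ⟨b0 k, ?_, ?_, ?_⟩⟩
  · simpa [rot] using b2 (Fin.rev k)
  · simpa [rot] using b3 (Fin.rev k)
  · simpa [rot] using b1 k


/-- Newton polynomial `τ_k = ∏_{m<k} (λ - θ_m)`. -/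
noncomputable def tau {d : ℕ} (θ : Fin (d + 1) → K) (k : Fin (d + 1)) : K[X] :=
  ∏ m ∈ Finset.Iio k, (X - C (θ m))

theorem tau_monic {d : ℕ} (θ : Fin (d + 1) → K) (k : Fin (d + 1)) : (tau θ k).Monic :=
  monic_prod_of_monic _ _ fun _ _ => monic_X_sub_C _

theorem tau_natDegree {d : ℕ} (θ : Fin (d + 1) → K) (k : Fin (d + 1)) :
    (tau θ k).natDegree = (k : ℕ) := by
  rw [tau, natDegree_prod_of_monic _ _ fun _ _ => monic_X_sub_C _]
  simp only [natDegree_X_sub_C, Finset.sum_const, smul_eq_mul, mul_one, Fin.card_Iio]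

theorem tau_eval_lt {d : ℕ} (θ : Fin (d + 1) → K) {j k : Fin (d + 1)} (h : j < k) :
    (tau θ k).eval (θ j) = 0 := by
  rw [tau, eval_prod]
  apply Finset.prod_eq_zero (i := j)
  · exact Finset.mem_Iio.mpr h
  · simp

theorem tau_eval_self {d : ℕ} {θ : Fin (d + 1) → K} (hθ : Function.Injective θ)
    (k : Fin (d + 1)) : (tau θ k).eval (θ k) ≠ 0 := by
  rw [tau, eval_prod, Finset.prod_ne_zero_iff]
  intro m hm
  rw [Finset.mem_Iio] at hm
  rw [eval_sub, eval_X, eval_C]
  intro h
  have := hθ (sub_eq_zero.mp h)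
  exact absurd this (ne_of_gt hm)

/-- Newton expansion with coefficients supported on `k ≤ n`. -/
theorem newton_expand {d : ℕ} (θ : Fin (d + 1) → K) :
    ∀ (n : ℕ) (_ : n ≤ d) (F : K[X]) (_ : F.natDegree ≤ n),
      ∃ c : Fin (d + 1) → K, (∀ k : Fin (d + 1), n < (k : ℕ) → c k = 0) ∧
        F = ∑ k, C (c k) * tau θ k := by
  intro n
  induction n with
  | zero =>
    intro _ F hF
    refine ⟨fun k => if k = 0 then F.coeff 0 else 0, ?_, ?_⟩
    · intro k hk
      beta_reduce
      rw [if_neg]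
      rintro rfl
      simp at hk
    · rw [Finset.sum_eq_single 0]
      · beta_reduce
        rw [if_pos rfl]
        have : tau θ (0 : Fin (d + 1)) = 1 := by
          have h0 : Finset.Iio (0 : Fin (d + 1)) = ∅ := by
            ext x
            simp [Fin.not_lt_zero]
          rw [tau, h0, Finset.prod_empty]
        rw [this, mul_one]
        exact eq_C_of_natDegree_le_zero hF
      · intro k _ hk
        beta_reduce
        rw [if_neg hk]; simp
      · intro h; exact absurd (Finset.mem_univ _) h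
  | succ n ih =>
    intro hn F hF
    set m : Fin (d + 1) := ⟨n + 1, by omega⟩ with hm
    set G : K[X] := F - C (F.coeff (n + 1)) * tau θ m with hG
    have hGd : G.natDegree ≤ n := by
      have h1 : G.natDegree ≤ n + 1 := by
        rw [hG]
        refine le_trans (natDegree_sub_le _ _) (max_le hF ?_)
        refine le_trans (natDegree_C_mul_le _ _) ?_
        rw [tau_natDegree]
      have h2 : G.coeff (n + 1) = 0 := by
        rw [hG, coeff_sub, coeff_C_mul]
        have h3 := tau_monic θ m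
        have h4 := tau_natDegree θ m
        rw [Monic, leadingCoeff, h4] at h3
        have h5 : (tau θ m).coeff (n + 1) = 1 := h3
        rw [h5, mul_one, sub_self]
      by_contra hcon
      have h6 : G.natDegree = n + 1 := by omega
      have h7 : G = 0 := by
        rw [← leadingCoeff_eq_zero, leadingCoeff, h6]; exact h2
      rw [h7] at h6
      simp at h6
    obtain ⟨c, hc, hcG⟩ := ih (by omega) G hGd
    refine ⟨fun k => c k + if k = m then F.coeff (n + 1) else 0, ?_, ?_⟩
    · intro k hk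
      beta_reduce
      rw [hc k (by omega), if_neg, add_zero]
      rintro rfl
      simp [hm] at hk
    · have h8 : F = G + C (F.coeff (n + 1)) * tau θ m := by rw [hG]; ring
      have h9 : ∀ k, C (c k + if k = m then F.coeff (n + 1) else 0) * tau θ k =
          C (c k) * tau θ k + (if k = m then C (F.coeff (n + 1)) * tau θ m else 0) := by
        intro k
        by_cases hk : k = m
        · rw [if_pos hk, if_pos hk, hk, C_add]; ring
        · rw [if_neg hk, if_neg hk]; simp
      rw [Finset.sum_congr rfl fun k _ => h9 k, Finset.sum_add_distrib, ← hcG,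
        Finset.sum_ite_eq' Finset.univ m, if_pos (Finset.mem_univ _)]
      exact h8

/-- the two-sided triangular factorisation argument -/
theorem factor {n : ℕ} (L B A U : Matrix (Fin n) (Fin n) K)
    (hL : ∀ i k, i < k → L i k = 0) (hU : ∀ i k, k < i → U i k = 0)
    (hA : ∀ i k, i < k → A i k = 0) (hB : ∀ i k, k < i → B i k = 0)
    (hAd : ∀ i, A i i ≠ 0) (hBd : ∀ i, B i i ≠ 0) (h : L * B = A * U) :
    ∃ δ : Fin n → K, L * B = A * Matrix.diagonal δ * B := by
  have hAt : A.BlockTriangular OrderDual.toDual := fun i j hij => hA i j hij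
  have hBt : B.BlockTriangular id := fun i j hij => hB i j hij
  have hLt : L.BlockTriangular OrderDual.toDual := fun i j hij => hL i j hij
  have hUt : U.BlockTriangular id := fun i j hij => hU i j hij
  have dA : IsUnit A.det := by
    rw [Matrix.det_of_isLowerTriangular A hAt, isUnit_iff_ne_zero, Finset.prod_ne_zero_iff]
    exact fun i _ => hAd i
  have dB : IsUnit B.det := by
    rw [Matrix.det_of_isUpperTriangular hBt, isUnit_iff_ne_zero, Finset.prod_ne_zero_iff]
    exact fun i _ => hBd i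
  have : Invertible A := Matrix.invertibleOfIsUnitDet A dA
  have : Invertible B := Matrix.invertibleOfIsUnitDet B dB
  have hAi := Matrix.blockTriangular_inv_of_blockTriangular hAt
  have hBi := Matrix.blockTriangular_inv_of_blockTriangular hBt
  have e : A⁻¹ * L = U * B⁻¹ := by
    have h1 : A⁻¹ * (L * B) * B⁻¹ = A⁻¹ * (A * U) * B⁻¹ := by rw [h]
    rw [← Matrix.mul_assoc A⁻¹ L B, Matrix.mul_nonsing_inv_cancel_right _ _ dB,
      Matrix.nonsing_inv_mul_cancel_left _ _ dA] at h1
    exact h1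
  have t1 := hAi.mul hLt
  have t2 := hUt.mul hBi
  have hdiag : A⁻¹ * L = Matrix.diagonal fun i => (A⁻¹ * L) i i := by
    ext i j
    by_cases hij : i = j
    · subst hij; simp
    · rw [Matrix.diagonal_apply_ne _ hij]
      rcases lt_or_gt_of_ne hij with h1 | h1
      · exact t1 h1
      · rw [e]; exact t2 h1
  refine ⟨fun i => (A⁻¹ * L) i i, ?_⟩
  rw [← hdiag, Matrix.mul_nonsing_inv_cancel_left _ _ dA]


/-- The explicit family: up to nonzero row factors `a` and column factors `b`,
`X i j = ∑ k, δ k * ∏_{m<k} (φ i - φ m) * ∏_{m<k} (θ j - θ m)` with distinct `θ`, distinct `φ`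
and nonzero `δ`. -/
def NewtonForm {d : ℕ} (X : Matrix (Fin (d + 1)) (Fin (d + 1)) K) : Prop :=
  ∃ θ φ δ a b : Fin (d + 1) → K, Function.Injective θ ∧ Function.Injective φ ∧
    (∀ k, δ k ≠ 0) ∧ (∀ k, a k ≠ 0) ∧ (∀ k, b k ≠ 0) ∧
    ∀ i j, X i j = a i * b j * ∑ k, δ k * (∏ m ∈ Finset.Iio k, (φ i - φ m)) *
      (∏ m ∈ Finset.Iio k, (θ j - θ m))

theorem tau_eval {d : ℕ} (θ : Fin (d + 1) → K) (k : Fin (d + 1)) (x : K) :
    (tau θ k).eval x = ∏ m ∈ Finset.Iio k, (x - θ m) := by
  rw [tau, eval_prod]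
  exact Finset.prod_congr rfl fun _ _ => by simp

theorem degree_sum_tau {d : ℕ} (θ : Fin (d + 1) → K) (c : Fin (d + 1) → K) (i : Fin (d + 1))
    (h : ∀ k, i < k → c k = 0) (hi : c i ≠ 0) :
    (∑ k, C (c k) * tau θ k).degree = ((i : ℕ) : WithBot ℕ) := by
  have h1 : (∑ k, C (c k) * tau θ k).natDegree ≤ (i : ℕ) := by
    refine natDegree_sum_le_of_forall_le _ _ fun k _ => ?_
    rcases lt_or_ge i k with hk | hk
    · rw [h k hk]; simp
    · refine le_trans (natDegree_C_mul_le _ _) ?_
      rw [tau_natDegree]; exact hk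
  have h2 : (∑ k, C (c k) * tau θ k).coeff (i : ℕ) = c i := by
    rw [finsetSum_coeff, Finset.sum_eq_single i]
    · rw [coeff_C_mul]
      have h3 := tau_monic θ i
      rw [Monic, leadingCoeff, tau_natDegree] at h3
      rw [h3, mul_one]
    · intro k _ hk
      rw [coeff_C_mul]
      rcases lt_or_gt_of_ne hk with h3 | h3
      · rw [coeff_eq_zero_of_natDegree_lt (by rw [tau_natDegree]; exact h3), mul_zero]
      · rw [h k h3, zero_mul]
    · intro h; exact absurd (Finset.mem_univ _) h
  refine degree_eq_of_le_of_coeff_ne_zero (natDegree_le_iff_degree_le.mp h1) ?_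
  rw [h2]; exact hi

theorem newtonForm_top {d : ℕ} {X : Matrix (Fin (d + 1)) (Fin (d + 1)) K}
    {θ φ δ a b : Fin (d + 1) → K}
    (hX : ∀ i j, X i j = a i * b j * ∑ k, δ k * (∏ m ∈ Finset.Iio k, (φ i - φ m)) *
      (∏ m ∈ Finset.Iio k, (θ j - θ m))) (j : Fin (d + 1)) : X 0 j = a 0 * b j * δ 0 := by
  rw [hX 0 j, Finset.sum_eq_single 0]
  · have h0 : Finset.Iio (0 : Fin (d + 1)) = ∅ := by
      ext x
      simp
    rw [h0]; simp
  · intro k _ hk
    have h1 : ∏ m ∈ Finset.Iio k, (φ 0 - φ m) = 0 := by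
      apply Finset.prod_eq_zero (i := 0)
      · rw [Finset.mem_Iio]; exact Fin.pos_of_ne_zero hk
      · simp
    rw [h1]; ring
  · intro h; exact absurd (Finset.mem_univ _) h

theorem NewtonForm.north {d : ℕ} {X : Matrix (Fin (d + 1)) (Fin (d + 1)) K}
    (h : NewtonForm X) : North X ∧ ∀ j, X 0 j ≠ 0 := by
  obtain ⟨θ, φ, δ, a, b, hθ, hφ, hδ, ha, hb, hX⟩ := h
  have htop := newtonForm_top hX
  refine ⟨⟨θ, fun i => C (a i / (a 0 * δ 0)) *
    ∑ k, C (δ k * ∏ m ∈ Finset.Iio k, (φ i - φ m)) * tau θ k, hθ, ?_, ?_⟩, ?_⟩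
  · intro i
    have h1 : a i / (a 0 * δ 0) ≠ 0 := div_ne_zero (ha i) (mul_ne_zero (ha 0) (hδ 0))
    rw [degree_C_mul h1]
    refine degree_sum_tau θ (fun k => δ k * ∏ m ∈ Finset.Iio k, (φ i - φ m)) i ?_ ?_
    · intro k hk
      have : ∏ m ∈ Finset.Iio k, (φ i - φ m) = 0 := by
        apply Finset.prod_eq_zero (i := i)
        · exact Finset.mem_Iio.mpr hk
        · simp
      rw [this, mul_zero]
    · refine mul_ne_zero (hδ i) ?_
      have := tau_eval_self hφ i
      rwa [tau_eval] at this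
  · intro i j
    rw [htop j, hX i j, eval_mul, eval_C, eval_finsetSum]
    have h1 : ∀ k, (C (δ k * ∏ m ∈ Finset.Iio k, (φ i - φ m)) * tau θ k).eval (θ j) =
        δ k * (∏ m ∈ Finset.Iio k, (φ i - φ m)) * ∏ m ∈ Finset.Iio k, (θ j - θ m) := by
      intro k
      rw [eval_mul, eval_C, tau_eval]
    rw [Finset.sum_congr rfl fun k _ => h1 k]
    have h2 := ha 0
    have h3 := hδ 0
    field_simp
  · intro j
    rw [htop j]
    exact mul_ne_zero (mul_ne_zero (ha 0) (hb j)) (hδ 0)

theorem NewtonForm.transpose {d : ℕ} {X : Matrix (Fin (d + 1)) (Fin (d + 1)) K}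
    (h : NewtonForm X) : NewtonForm X.transpose := by
  obtain ⟨θ, φ, δ, a, b, hθ, hφ, hδ, ha, hb, hX⟩ := h
  refine ⟨φ, θ, δ, b, a, hφ, hθ, hδ, hb, ha, fun i j => ?_⟩
  rw [Matrix.transpose_apply, hX j i, mul_comm (a j) (b i)]
  congr 1
  exact Finset.sum_congr rfl fun k _ => by ring

theorem north_rot3_of_transpose {d : ℕ} {X : Matrix (Fin (d + 1)) (Fin (d + 1)) K}
    (h : North X.transpose) : North (rot (rot (rot X))) := by
  obtain ⟨θ, f, hθ, hf, hX⟩ := h
  refine ⟨fun j => θ (Fin.rev j), f, fun x y hxy => Fin.rev_injective (hθ hxy), hf, ?_⟩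
  intro i j
  have := hX i (Fin.rev j)
  simpa [rot] using this

theorem north_transpose_of_rot3 {d : ℕ} {X : Matrix (Fin (d + 1)) (Fin (d + 1)) K}
    (h : North (rot (rot (rot X)))) : North X.transpose := by
  obtain ⟨θ, f, hθ, hf, hX⟩ := h
  refine ⟨fun j => θ (Fin.rev j), f, fun x y hxy => Fin.rev_injective (hθ hxy), hf, ?_⟩
  intro i j
  have := hX i (Fin.rev j)
  simpa [rot] using this

/-- rows of a north Vandermonde matrix in Newton coordinates -/
theorem North.newton {d : ℕ} {X : Matrix (Fin (d + 1)) (Fin (d + 1)) K} (h : North X) :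
    ∃ (θ : Fin (d + 1) → K) (L : Matrix (Fin (d + 1)) (Fin (d + 1)) K), Function.Injective θ ∧
      (∀ i k, i < k → L i k = 0) ∧
      ∀ i j, X i j = ∑ k, L i k * ((tau θ k).eval (θ j) * X 0 j) := by
  obtain ⟨θ, f, hθ, hf, hX⟩ := h
  have h1 : ∀ i : Fin (d + 1), ∃ c : Fin (d + 1) → K,
      (∀ k : Fin (d + 1), (i : ℕ) < (k : ℕ) → c k = 0) ∧ f i = ∑ k, C (c k) * tau θ k := by
    intro i
    refine newton_expand θ i (by have := i.2; omega) (f i) ?_
    rw [natDegree_eq_of_degree_eq_some (hf i)]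
  choose c hc hcf using h1
  refine ⟨θ, fun i k => c i k, hθ, fun i k hik => hc i k hik, ?_⟩
  intro i j
  rw [hX i j, hcf i, eval_finsetSum, Finset.mul_sum]
  refine Finset.sum_congr rfl fun k _ => ?_
  rw [eval_mul, eval_C]; ring

theorem newtonForm_of {d : ℕ} {X : Matrix (Fin (d + 1)) (Fin (d + 1)) K} (hN : North X)
    (hW : North (rot (rot (rot X)))) (h0 : ∀ j, X 0 j ≠ 0) (h1 : ∀ i, X i 0 ≠ 0) :
    NewtonForm X := by
  have hdet := hN.det_ne h0
  obtain ⟨θ, L, hθ, hL, hXL⟩ := hN.newton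
  obtain ⟨φ, L', hφ, hL', hXL'⟩ := (north_transpose_of_rot3 hW).newton
  set B : Matrix (Fin (d + 1)) (Fin (d + 1)) K := fun k j => (tau θ k).eval (θ j) * X 0 j with hB
  set A : Matrix (Fin (d + 1)) (Fin (d + 1)) K := fun i k => (tau φ k).eval (φ i) * X i 0 with hA
  set U : Matrix (Fin (d + 1)) (Fin (d + 1)) K := fun k j => L' j k with hU
  have e1 : L * B = X := by
    ext i j
    rw [Matrix.mul_apply, hXL i j]
  have e2 : A * U = X := by
    ext i j
    rw [Matrix.mul_apply]
    have := hXL' j i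
    rw [Matrix.transpose_apply] at this
    rw [this]
    refine Finset.sum_congr rfl fun k _ => ?_
    rw [Matrix.transpose_apply, mul_comm]
  obtain ⟨δ, hδ⟩ := factor L B A U hL (fun i k hik => hL' k i hik)
    (fun i k hik => by rw [hA]; simp only; rw [tau_eval_lt φ hik, zero_mul])
    (fun i k hik => by rw [hB]; simp only; rw [tau_eval_lt θ hik, zero_mul])
    (fun i => mul_ne_zero (tau_eval_self hφ i) (h1 i))
    (fun i => mul_ne_zero (tau_eval_self hθ i) (h0 i)) (e1.trans e2.symm)
  rw [e1] at hδ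
  refine ⟨θ, φ, δ, fun i => X i 0, fun j => X 0 j, hθ, hφ, ?_, h1, h0, ?_⟩
  · intro k hk
    apply hdet
    rw [hδ, Matrix.det_mul, Matrix.det_mul, Matrix.det_diagonal,
      Finset.prod_eq_zero (Finset.mem_univ k) hk]
    ring
  · intro i j
    have h2 := congrFun (congrFun hδ i) j
    rw [h2, Matrix.mul_apply, Finset.mul_sum]
    refine Finset.sum_congr rfl fun k _ => ?_
    rw [Matrix.mul_diagonal, ← tau_eval, ← tau_eval]
    ring

theorem newtonForm_iff {d : ℕ} (X : Matrix (Fin (d + 1)) (Fin (d + 1)) K) :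
    NewtonForm X ↔ North X ∧ North (rot (rot (rot X))) ∧ (∀ j, X 0 j ≠ 0) ∧
      (∀ i, X i 0 ≠ 0) := by
  constructor
  · intro h
    exact ⟨h.north.1, north_rot3_of_transpose h.transpose.north.1, h.north.2,
      h.transpose.north.2⟩
  · rintro ⟨h1, h2, h3, h4⟩
    exact newtonForm_of h1 h2 h3 h4

/-- **Main theorem.** -/
theorem result (K : Type*) [Field K] (d : ℕ) (X : Matrix (Fin (d + 1)) (Fin (d + 1)) K) :
    (FourWay X ↔ (X = 0 ∧ ∃ θ : Fin (d + 1) → K, Function.Injective θ) ∨
      (NewtonForm X ∧ NewtonForm (rot (rot X)))) ∧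
    (NewtonForm X ↔ North X ∧ North (rot (rot (rot X))) ∧ (∀ j, X 0 j ≠ 0) ∧
      (∀ i, X i 0 ≠ 0)) ∧
    (NewtonForm X → ¬ (X = 0)) := by
  refine ⟨⟨?_, ?_⟩, newtonForm_iff X, ?_⟩
  · intro h
    by_cases h0 : X = 0
    · left
      refine ⟨h0, ?_⟩
      rw [h0] at h
      exact fourWay_zero_iff.mp h
    · right
      have hb := fourWay_border h h0
      have hb2 := fourWay_border h.rot.rot (rot_ne (rot_ne h0))
      refine ⟨newtonForm_of h.1 h.2.2.2 (fun j => (hb.2 j).1) (fun i => (hb.2 i).2.2.1),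
        newtonForm_of h.2.2.1 ?_ (fun j => (hb2.2 j).1) (fun i => (hb2.2 i).2.2.1)⟩
      exact h.rot.rot.2.2.2
  · rintro (⟨rfl, h⟩ | ⟨h, h'⟩)
    · exact fourWay_zero_iff.mpr h
    · have k1 := (newtonForm_iff _).mp h
      have k2 := (newtonForm_iff _).mp h'
      refine ⟨k1.1, ?_, k2.1, k1.2.1⟩
      have := k2.2.1
      rwa [rot4] at this
  · intro h h0
    exact h.north.2 0 (by rw [h0]; rfl)

end Pool.Agent.Results.MP_511af2_al.NewtonForm
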