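import Mathlib

namespace Pool.Agent.Results.MP_511af2_al.SmallD

open Polynomial

variable {K : Type*} [Field K]

/-- North Vandermonde: distinct scalars `θ j`, polynomials `f i` of degree exactly `i`. -/
def North {d : ℕ} (X : Matrix (Fin (d + 1)) (Fin (d + 1)) K) : Prop :=
  ∃ (θ : Fin (d + 1) → K) (f : Fin (d + 1) → K[X]),
    Function.Injective θ ∧ (∀ i, (f i).degree = ((i : ℕ) : WithBot ℕ)) ∧
      ∀ i j, X i j = X 0 j * (f i).eval (θ j)

/-- Rotation counterclockwise by 90 degrees: `X'_{ij} = X_{j,d-i}`. -/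
def rot {d : ℕ} (X : Matrix (Fin (d + 1)) (Fin (d + 1)) K) :
    Matrix (Fin (d + 1)) (Fin (d + 1)) K := fun i j => X j (Fin.rev i)

/-- Vandermonde in all four directions. -/
def FourWay {d : ℕ} (X : Matrix (Fin (d + 1)) (Fin (d + 1)) K) : Prop :=
  North X ∧ North (rot X) ∧ North (rot (rot X)) ∧ North (rot (rot (rot X)))

omit [Field K] in
theorem rot4 {d : ℕ} (X : Matrix (Fin (d + 1)) (Fin (d + 1)) K) :
    rot (rot (rot (rot X))) = X := by
  ext i j; simp [rot]

theorem FourWay.rot {d : ℕ} {X : Matrix (Fin (d + 1)) (Fin (d + 1)) K} (h : FourWay X) :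
    FourWay (rot X) := ⟨h.2.1, h.2.2.1, h.2.2.2, by rw [rot4]; exact h.1⟩

theorem North.col {d : ℕ} {X : Matrix (Fin (d + 1)) (Fin (d + 1)) K} (h : North X)
    {j : Fin (d + 1)} (hj : X 0 j = 0) (i : Fin (d + 1)) : X i j = 0 := by
  obtain ⟨θ, f, -, -, hX⟩ := h
  rw [hX i j, hj, zero_mul]

/-- if row `i` vanishes, at most `i` top entries are nonzero -/
theorem North.row [DecidableEq K] {d : ℕ} {X : Matrix (Fin (d + 1)) (Fin (d + 1)) K} (h : North X)
    {i : Fin (d + 1)} (hi : ∀ j, X i j = 0) :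
    (Finset.univ.filter (fun j => X 0 j ≠ 0)).card ≤ (i : ℕ) := by
  obtain ⟨θ, f, hθ, hf, hX⟩ := h
  have hne : f i ≠ 0 := by
    intro h0
    have := hf i
    rw [h0, degree_zero] at this
    exact absurd this (by simp)
  have hdeg : (f i).natDegree = (i : ℕ) := natDegree_eq_of_degree_eq_some (hf i)
  have h1 : (Finset.univ.filter (fun j => X 0 j ≠ 0)).image θ ⊆ (f i).roots.toFinset := by
    intro x hx
    rw [Finset.mem_image] at hx
    obtain ⟨j, hj, rfl⟩ := hx
    rw [Finset.mem_filter] at hj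
    rw [Multiset.mem_toFinset, mem_roots hne, IsRoot.def]
    have := hX i j
    rw [hi j] at this
    rcases mul_eq_zero.mp this.symm with h | h
    · exact absurd h hj.2
    · exact h
  calc (Finset.univ.filter (fun j => X 0 j ≠ 0)).card
      = ((Finset.univ.filter (fun j => X 0 j ≠ 0)).image θ).card :=
        (Finset.card_image_of_injective _ hθ).symm
    _ ≤ (f i).roots.toFinset.card := Finset.card_le_card h1
    _ ≤ Multiset.card (f i).roots := Multiset.toFinset_card_le _
    _ ≤ (f i).natDegree := card_roots' _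
    _ = i := hdeg

theorem border_aux [DecidableEq K] {d : ℕ} {X : Matrix (Fin (d + 1)) (Fin (d + 1)) K} (h : FourWay X) (h0 : X ≠ 0) :
    ∀ j, X 0 j ≠ 0 := by
  obtain ⟨hN, hE, hS, hW⟩ := h
  -- zero columns
  have colN : ∀ j, X 0 j = 0 → ∀ i, X i j = 0 := fun j hj i => hN.col hj i
  have colS : ∀ j, X (Fin.last d) j = 0 → ∀ i, X i j = 0 := by
    intro j hj i
    have := hS.col (j := Fin.rev j) (by simpa [rot] using hj) (Fin.rev i)
    simpa [rot] using this
  have rowE : ∀ i, X i (Fin.last d) = 0 → ∀ j, X i j = 0 := by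
    intro i hi j
    have := hE.col (j := i) (by simpa [rot] using hi) (Fin.rev j)
    simpa [rot] using this
  have rowW : ∀ i, X i 0 = 0 → ∀ j, X i j = 0 := by
    intro i hi j
    have := hW.col (j := Fin.rev i) (by simpa [rot] using hi) j
    simpa [rot] using this
  set C := Finset.univ.filter (fun j => X 0 j ≠ 0) with hC
  set R := Finset.univ.filter (fun i => X i 0 ≠ 0) with hR
  -- zero rows bounds
  have rN : ∀ i, X i 0 = 0 → C.card ≤ (i : ℕ) := fun i hi => hN.row (rowW i hi)
  have rS : ∀ i, X i 0 = 0 → C.card ≤ ((Fin.rev i : Fin (d + 1)) : ℕ) := by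
    intro i hi
    have h1 := hS.row (i := Fin.rev i) (by intro j; simpa [rot] using rowW i hi (Fin.rev j))
    refine le_trans (Finset.card_le_card_of_injOn Fin.rev ?_ (Fin.rev_injective.injOn)) h1
    intro j hj
    simp only [hC, Finset.coe_filter, Finset.mem_univ, true_and, Set.mem_ofPred_eq] at hj ⊢
    intro h2
    apply hj
    have : X (Fin.last d) j = 0 := by simpa [rot] using h2
    exact colS j this 0
  have cE : ∀ j, X 0 j = 0 → R.card ≤ ((Fin.rev j : Fin (d + 1)) : ℕ) := by
    intro j hj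
    have h1 := hE.row (i := Fin.rev j) (by intro i; simpa [rot] using colN j hj i)
    refine le_trans (Finset.card_le_card_of_injOn id ?_ (Function.injective_id.injOn)) h1
    intro i hi
    simp only [hR, Finset.coe_filter, Finset.mem_univ, true_and, Set.mem_ofPred_eq, id] at hi ⊢
    intro h2
    apply hi
    have : X i (Fin.last d) = 0 := by simpa [rot] using h2
    exact rowE i this 0
  have cW : ∀ j, X 0 j = 0 → R.card ≤ (j : ℕ) := by
    intro j hj
    have h1 := hW.row (i := j) (by intro i; simpa [rot] using colN j hj (Fin.rev i))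
    refine le_trans (Finset.card_le_card_of_injOn Fin.rev ?_ (Fin.rev_injective.injOn)) h1
    intro i hi
    simp only [hR, Finset.coe_filter, Finset.mem_univ, true_and, Set.mem_ofPred_eq] at hi ⊢
    intro h2
    apply hi
    simpa [rot] using h2
  -- counting
  have hRc : (Finset.univ.filter (fun i : Fin (d + 1) => ¬ X i 0 ≠ 0)).card + R.card = d + 1 := by
    rw [hR, add_comm, Finset.card_filter_add_card_filter_not]; simp
  have hCc : (Finset.univ.filter (fun j : Fin (d + 1) => ¬ X 0 j ≠ 0)).card + C.card = d + 1 := by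
    rw [hC, add_comm, Finset.card_filter_add_card_filter_not]; simp
  have bR : (Finset.univ.filter (fun i : Fin (d + 1) => ¬ X i 0 ≠ 0)).card ≤
      (Finset.Icc C.card (d - C.card)).card := by
    refine Finset.card_le_card_of_injOn Fin.val ?_ (Fin.val_injective.injOn)
    intro i hi
    simp only [Finset.coe_filter, Finset.mem_univ, true_and, Set.mem_ofPred_eq, not_not] at hi
    have h1 := rN i hi
    have h2 := rS i hi
    rw [Fin.val_rev] at h2
    have h3 := i.2
    simp only [Finset.coe_Icc, Set.mem_Icc]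
    omega
  have bC : (Finset.univ.filter (fun j : Fin (d + 1) => ¬ X 0 j ≠ 0)).card ≤
      (Finset.Icc R.card (d - R.card)).card := by
    refine Finset.card_le_card_of_injOn Fin.val ?_ (Fin.val_injective.injOn)
    intro i hi
    simp only [Finset.coe_filter, Finset.mem_univ, true_and, Set.mem_ofPred_eq, not_not] at hi
    have h1 := cW i hi
    have h2 := cE i hi
    rw [Fin.val_rev] at h2
    have h3 := i.2
    simp only [Finset.coe_Icc, Set.mem_Icc]
    omega
  rw [Nat.card_Icc] at bR bC
  have hCpos : 0 < C.card := by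
    rw [Finset.card_pos]
    by_contra hemp
    rw [Finset.not_nonempty_iff_eq_empty] at hemp
    apply h0
    ext i j
    have : X 0 j = 0 := by
      by_contra hne
      have : j ∈ C := by rw [hC, Finset.mem_filter]; exact ⟨Finset.mem_univ _, hne⟩
      rw [hemp] at this
      exact absurd this (Finset.notMem_empty _)
    simpa using colN j this i
  have hRpos : 0 < R.card := by
    rw [Finset.card_pos]
    by_contra hemp
    rw [Finset.not_nonempty_iff_eq_empty] at hemp
    apply h0
    ext i j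
    have : X i 0 = 0 := by
      by_contra hne
      have : i ∈ R := by rw [hR, Finset.mem_filter]; exact ⟨Finset.mem_univ _, hne⟩
      rw [hemp] at this
      exact absurd this (Finset.notMem_empty _)
    simpa using rowW i this j
  have hfull : (Finset.univ.filter (fun j : Fin (d + 1) => ¬ X 0 j ≠ 0)).card = 0 := by omega
  intro j hj
  rw [Finset.card_eq_zero] at hfull
  have : j ∈ Finset.univ.filter (fun j : Fin (d + 1) => ¬ X 0 j ≠ 0) := by
    rw [Finset.mem_filter]; exact ⟨Finset.mem_univ _, by simpa using hj⟩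
  rw [hfull] at this
  exact absurd this (Finset.notMem_empty _)

theorem border {d : ℕ} {X : Matrix (Fin (d + 1)) (Fin (d + 1)) K} (h : FourWay X) (h0 : X ≠ 0) :
    ∀ j, X 0 j ≠ 0 := by
  classical
  exact border_aux h h0

omit [Field K] in
theorem rot_ne {d : ℕ} [Zero K] {X : Matrix (Fin (d + 1)) (Fin (d + 1)) K} (h0 : X ≠ 0) :
    rot X ≠ 0 := by
  intro h
  apply h0
  rw [← rot4 X, h]
  ext i j; simp [rot]

theorem North.det_ne {d : ℕ} {X : Matrix (Fin (d + 1)) (Fin (d + 1)) K} (h : North X)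
    (h0 : ∀ j, X 0 j ≠ 0) : X.det ≠ 0 := by
  classical
  obtain ⟨θ, f, hθ, hf, hX⟩ := h
  intro hdet
  obtain ⟨v, hv, hvX⟩ := Matrix.exists_vecMul_eq_zero_iff.mpr hdet
  set P : K[X] := ∑ i, C (v i) * f i with hP
  have hne : ∀ i, f i ≠ 0 := by
    intro i h0
    have := hf i
    rw [h0, degree_zero] at this
    exact absurd this (by simp)
  have hnd : ∀ i, (f i).natDegree = (i : ℕ) := fun i => natDegree_eq_of_degree_eq_some (hf i)
  have hev : ∀ j, P.eval (θ j) = 0 := by
    intro j
    have h1 := congrFun hvX j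
    rw [Matrix.vecMul, dotProduct] at h1
    have h2 : ∑ i, v i * X i j = X 0 j * P.eval (θ j) := by
      rw [hP, eval_finsetSum, Finset.mul_sum]
      refine Finset.sum_congr rfl fun i _ => ?_
      rw [eval_mul, eval_C, hX i j]; ring
    rw [h2] at h1
    rcases mul_eq_zero.mp h1 with h | h
    · exact absurd h (h0 j)
    · exact h
  have hPd : P.natDegree ≤ d := by
    rw [hP]
    refine natDegree_sum_le_of_forall_le _ _ fun i _ => ?_
    refine le_trans (natDegree_C_mul_le _ _) ?_
    rw [hnd i]; have := i.2; omega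
  have hP0 : P = 0 := by
    refine eq_zero_of_natDegree_lt_card_of_eval_eq_zero P hθ hev ?_
    rw [Fintype.card_fin]; omega
  -- take the largest index with v i ≠ 0
  have hex : (Finset.univ.filter (fun i => v i ≠ 0)).Nonempty := by
    by_contra hemp
    rw [Finset.not_nonempty_iff_eq_empty] at hemp
    apply hv
    ext i
    by_contra hne
    have : i ∈ Finset.univ.filter (fun i => v i ≠ 0) := by
      rw [Finset.mem_filter]; exact ⟨Finset.mem_univ _, hne⟩
    rw [hemp] at this
    exact absurd this (Finset.notMem_empty _)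
  obtain ⟨m, hm, hmax⟩ := Finset.exists_max_image _ (fun i : Fin (d + 1) => i) hex
  rw [Finset.mem_filter] at hm
  have hc : P.coeff (m : ℕ) = v m * (f m).coeff (m : ℕ) := by
    rw [hP, finsetSum_coeff, Finset.sum_eq_single m]
    · rw [coeff_C_mul]
    · intro i _ him
      rw [coeff_C_mul]
      by_cases hvi : v i = 0
      · rw [hvi, zero_mul]
      · have hle : i ≤ m := hmax i (by rw [Finset.mem_filter]; exact ⟨Finset.mem_univ _, hvi⟩)
        have hlt : i < m := lt_of_le_of_ne hle him
        rw [coeff_eq_zero_of_natDegree_lt (by rw [hnd i]; exact hlt), mul_zero]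
    · intro h; exact absurd (Finset.mem_univ _) h
  rw [hP0, coeff_zero] at hc
  rcases mul_eq_zero.mp hc.symm with h | h
  · exact hm.2 h
  · have h2 := hnd m
    rw [← h2] at h
    exact leadingCoeff_ne_zero.mpr (hne m) h

theorem deg_one_inj {p : K[X]} (hp : p.degree = 1) {x y : K} (h : p.eval x = p.eval y) :
    x = y := by
  have h1 : p.natDegree ≤ 1 := by rw [natDegree_eq_of_degree_eq_some (n := 1) (by simpa using hp)]
  have h2 := exists_eq_X_add_C_of_natDegree_le_one h1
  obtain ⟨a, b, hab⟩ := h2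
  have ha : a ≠ 0 := by
    rintro rfl
    rw [hab] at hp
    simp only [map_zero, zero_mul, zero_add] at hp
    have := degree_C_le (a := b)
    rw [hp] at this
    exact absurd this (by decide)
  rw [hab] at h
  simp only [eval_add, eval_mul, eval_C, eval_X] at h
  have : a * (x - y) = 0 := by linear_combination h
  rcases mul_eq_zero.mp this with h | h
  · exact absurd h ha
  · exact sub_eq_zero.mp h

theorem North.minor {d : ℕ} {X : Matrix (Fin (d + 1 + 1)) (Fin (d + 1 + 1)) K} (h : North X)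
    (h0 : ∀ j, X 0 j ≠ 0) {j k : Fin (d + 1 + 1)} (hjk : j ≠ k) :
    X 0 j * X 1 k - X 0 k * X 1 j ≠ 0 := by
  obtain ⟨θ, f, hθ, hf, hX⟩ := h
  intro he
  rw [hX 1 j, hX 1 k] at he
  have h1 : X 0 j * X 0 k * ((f 1).eval (θ k) - (f 1).eval (θ j)) = 0 := by
    linear_combination he
  rcases mul_eq_zero.mp h1 with h | h
  · exact (mul_ne_zero (h0 j) (h0 k)) h
  · have h2 := deg_one_inj (p := f 1) (by simpa using hf 1) (sub_eq_zero.mp h)
    exact hjk (hθ h2).symm

theorem north3_mk {X : Matrix (Fin 3) (Fin 3) K} (h0 : ∀ j, X 0 j ≠ 0)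
    (h1 : ∀ j k : Fin 3, j < k → X 0 j * X 1 k - X 0 k * X 1 j ≠ 0) (hdet : X.det ≠ 0) :
    North (d := 2) X := by
  classical
  have hθ : Function.Injective (fun j : Fin 3 => X 1 j / X 0 j) := by
    intro j k hjk
    simp only at hjk
    rw [div_eq_div_iff (h0 j) (h0 k)] at hjk
    by_contra hne
    rcases lt_or_gt_of_ne hne with h | h
    · exact h1 j k h (by linear_combination -hjk)
    · exact h1 k j h (by linear_combination hjk)
  set θ : Fin 3 → K := fun j : Fin 3 => X 1 j / X 0 j with hθd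
  set g : K[X] := Lagrange.interpolate Finset.univ θ (fun j => X 2 j / X 0 j) with hg
  have hgd : g.degree < 3 := by
    have h2 : g.degree < (((Finset.univ : Finset (Fin 3)).card : ℕ) : WithBot ℕ) :=
      Lagrange.degree_interpolate_lt (s := (Finset.univ : Finset (Fin 3))) (v := θ)
        (fun j => X 2 j / X 0 j) hθ.injOn
    rw [Finset.card_univ, Fintype.card_fin] at h2
    exact_mod_cast h2
  have hge : ∀ j, g.eval (θ j) = X 2 j / X 0 j := fun j =>
    Lagrange.eval_interpolate_at_node (fun j => X 2 j / X 0 j) hθ.injOn (Finset.mem_univ j)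
  have hg2 : g.degree = 2 := by
    by_contra hne
    have hlt : g.natDegree ≤ 1 := by
      rcases eq_or_ne g 0 with h | h
      · rw [h]; simp
      · rw [degree_eq_natDegree h] at hgd hne
        have h3 : g.natDegree < 3 := by exact_mod_cast hgd
        have h4 : g.natDegree ≠ 2 := by
          intro h5; apply hne; rw [h5]; rfl
        omega
    obtain ⟨a, b, hab⟩ := exists_eq_X_add_C_of_natDegree_le_one hlt
    have hrow : ∀ j, X 2 j = a * X 1 j + b * X 0 j := by
      intro j
      have h2 := hge j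
      rw [hab] at h2
      simp only [eval_add, eval_mul, eval_C, eval_X, hθd] at h2
      have h3 := h0 j
      field_simp at h2
      linear_combination -h2
    apply hdet
    rw [Matrix.det_fin_three, hrow 0, hrow 1, hrow 2]
    ring
  refine ⟨θ, ![1, Polynomial.X, g], hθ, ?_, ?_⟩
  · intro i
    fin_cases i
    · simp
    · simp
    · simpa using hg2
  · intro i j
    fin_cases i
    · simp
    · simp only [hθd]
      simp
      rw [mul_div_cancel₀ _ (h0 j)]
    · have h2 := hge j
      simp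
      rw [h2, mul_div_cancel₀ _ (h0 j)]

theorem north2_mk {X : Matrix (Fin 2) (Fin 2) K} (h0 : ∀ j, X 0 j ≠ 0) (hdet : X.det ≠ 0) :
    North (d := 1) X := by
  classical
  rw [Matrix.det_fin_two] at hdet
  have hθ : Function.Injective (fun j : Fin 2 => X 1 j / X 0 j) := by
    intro j k hjk
    simp only at hjk
    rw [div_eq_div_iff (h0 j) (h0 k)] at hjk
    by_contra hne
    fin_cases j <;> fin_cases k
    · exact hne rfl
    · exact hdet (by simp at hjk; linear_combination -hjk)
    · exact hdet (by simp at hjk; linear_combination hjk)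
    · exact hne rfl
  refine ⟨fun j : Fin 2 => X 1 j / X 0 j, ![1, Polynomial.X], hθ, ?_, ?_⟩
  · intro i
    fin_cases i
    · simp
    · simp
  · intro i j
    fin_cases i
    · simp
    · simp
      rw [mul_div_cancel₀ _ (h0 j)]

theorem north_zero {d : ℕ} (θ : Fin (d + 1) → K) (hθ : Function.Injective θ) :
    North (0 : Matrix (Fin (d + 1)) (Fin (d + 1)) K) :=
  ⟨θ, fun i => Polynomial.X ^ (i : ℕ), hθ, fun i => by simp, fun i j => by simp⟩

theorem rot_zero {d : ℕ} : rot (0 : Matrix (Fin (d + 1)) (Fin (d + 1)) K) = 0 := by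
  ext i j; simp [rot]

theorem fourWay_zero_iff {d : ℕ} :
    FourWay (0 : Matrix (Fin (d + 1)) (Fin (d + 1)) K) ↔
      ∃ θ : Fin (d + 1) → K, Function.Injective θ := by
  constructor
  · rintro ⟨⟨θ, f, hθ, -, -⟩, -⟩
    exact ⟨θ, hθ⟩
  · rintro ⟨θ, hθ⟩
    refine ⟨north_zero θ hθ, ?_, ?_, ?_⟩ <;> simp only [rot_zero] <;> exact north_zero θ hθ

theorem det_rot3 (X : Matrix (Fin 3) (Fin 3) K) : (rot (d := 2) X).det = - X.det := by
  rw [Matrix.det_fin_three, Matrix.det_fin_three]
  simp only [rot, show Fin.rev (0 : Fin 3) = 2 from rfl, show Fin.rev (1 : Fin 3) = 1 from rfl,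
    show Fin.rev (2 : Fin 3) = 0 from rfl]
  ring

theorem det_rot2 (X : Matrix (Fin 2) (Fin 2) K) : (rot (d := 1) X).det = - X.det := by
  rw [Matrix.det_fin_two, Matrix.det_fin_two]
  simp only [rot, show Fin.rev (0 : Fin 2) = 1 from rfl, show Fin.rev (1 : Fin 2) = 0 from rfl]
  ring

/-- explicit conditions for `3 × 3` matrices: every entry except the central one, every
`2 × 2` minor except the one on the four corners, and the determinant are nonzero. -/
def Generic3 (X : Matrix (Fin 3) (Fin 3) K) : Prop :=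
  (∀ i j : Fin 3, ¬ (i = 1 ∧ j = 1) → X i j ≠ 0) ∧
    (∀ i i' j j' : Fin 3, i < i' → j < j' → ¬ (i = 0 ∧ i' = 2 ∧ j = 0 ∧ j' = 2) →
      X i j * X i' j' - X i j' * X i' j ≠ 0) ∧ X.det ≠ 0

theorem generic3_rot {X : Matrix (Fin 3) (Fin 3) K} (h : Generic3 X) :
    Generic3 (rot (d := 2) X) := by
  obtain ⟨h1, h2, h3⟩ := h
  refine ⟨?_, ?_, ?_⟩
  · intro i j hij
    apply h1
    rintro ⟨ha, hb⟩
    apply hij
    refine ⟨?_, ha⟩
    rw [← Fin.rev_rev i, hb]; rfl
  · intro i i' j j' hi hj hn he
    simp only [rot] at he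
    apply h2 j j' (Fin.rev i') (Fin.rev i) hj (Fin.rev_lt_rev.mpr hi)
    · rintro ⟨ha, hb, hc, hd⟩
      apply hn
      refine ⟨?_, ?_, ha, hb⟩
      · rw [← Fin.rev_rev i, hd]; rfl
      · rw [← Fin.rev_rev i', hc]; rfl
    · linear_combination -he
  · rw [det_rot3]; exact neg_ne_zero.mpr h3

theorem generic3_north {X : Matrix (Fin 3) (Fin 3) K} (h : Generic3 X) : North (d := 2) X := by
  obtain ⟨h1, h2, h3⟩ := h
  refine north3_mk (fun j => h1 0 j (by rintro ⟨h, -⟩; exact absurd h (by decide))) ?_ h3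
  intro j k hjk
  exact h2 0 1 j k (by decide) hjk (by rintro ⟨-, h, -⟩; exact absurd h (by decide))

theorem fourWay3_generic {X : Matrix (Fin 3) (Fin 3) K} (h : FourWay (d := 2) X) (h0 : X ≠ 0) :
    Generic3 X := by
  have b0 := border h h0
  have b1 := border h.rot (rot_ne h0)
  have b2 := border h.rot.rot (rot_ne (rot_ne h0))
  have b3 := border h.rot.rot.rot (rot_ne (rot_ne (rot_ne h0)))
  have m0 := fun {j k : Fin 3} (hjk : j ≠ k) => North.minor (d := 1) h.1 b0 hjk
  have m1 := fun {j k : Fin 3} (hjk : j ≠ k) => North.minor (d := 1) h.2.1 b1 hjk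
  have m2 := fun {j k : Fin 3} (hjk : j ≠ k) => North.minor (d := 1) h.2.2.1 b2 hjk
  have m3 := fun {j k : Fin 3} (hjk : j ≠ k) => North.minor (d := 1) h.2.2.2 b3 hjk
  have hd := North.det_ne h.1 b0
  simp only [rot, show Fin.rev (0 : Fin 3) = 2 from rfl,
    show Fin.rev (1 : Fin 3) = 1 from rfl] at b1 b2 b3 m1 m2 m3
  have e1 : ∀ i, X i 0 ≠ 0 := fun i => by simpa using b3 (Fin.rev i)
  have e2 : ∀ j, X 2 j ≠ 0 := fun j => by simpa using b2 (Fin.rev j)
  refine ⟨?_, ?_, hd⟩
  · intro i j hij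
    fin_cases i
    · exact b0 _
    · fin_cases j
      · exact e1 _
      · exact absurd ⟨rfl, rfl⟩ hij
      · exact b1 _
    · exact e2 _
  · intro i i' j j' hi hj hn
    have key : (i = 0 ∧ i' = 1) ∨ (i = 1 ∧ i' = 2) ∨ (j = 0 ∧ j' = 1) ∨ (j = 1 ∧ j' = 2) := by
      revert i i' j j'; decide
    rcases key with ⟨rfl, rfl⟩ | ⟨rfl, rfl⟩ | ⟨rfl, rfl⟩ | ⟨rfl, rfl⟩
    · have := m0 (j := j) (k := j') (ne_of_lt hj)
      intro he; apply this; linear_combination he
    · have := m2 (j := Fin.rev j) (k := Fin.rev j') (fun h => (ne_of_lt hj) (Fin.rev_injective h))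
      simp only [Fin.rev_rev] at this
      intro he; apply this; linear_combination -he
    · have := m3 (j := Fin.rev i) (k := Fin.rev i') (fun h => (ne_of_lt hi) (Fin.rev_injective h))
      simp only [Fin.rev_rev, show Fin.rev (2 : Fin 3) = 0 from rfl] at this
      intro he; apply this; linear_combination he
    · have := m1 (j := i) (k := i') (ne_of_lt hi)
      intro he; apply this; linear_combination -he

theorem fourWay3_iff (X : Matrix (Fin 3) (Fin 3) K) :
    FourWay (d := 2) X ↔
      (X = 0 ∧ ∃ θ : Fin 3 → K, Function.Injective θ) ∨ Generic3 X := by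
  constructor
  · intro h
    by_cases h0 : X = 0
    · left
      refine ⟨h0, ?_⟩
      rw [h0] at h
      exact fourWay_zero_iff.mp h
    · right; exact fourWay3_generic h h0
  · rintro (⟨rfl, h⟩ | h)
    · exact fourWay_zero_iff.mpr h
    · exact ⟨generic3_north h, generic3_north (generic3_rot h),
        generic3_north (generic3_rot (generic3_rot h)),
        generic3_north (generic3_rot (generic3_rot (generic3_rot h)))⟩

theorem fourWay2_iff (X : Matrix (Fin 2) (Fin 2) K) :
    FourWay (d := 1) X ↔ X = 0 ∨ ((∀ i j, X i j ≠ 0) ∧ X.det ≠ 0) := by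
  have key : ∀ Y : Matrix (Fin 2) (Fin 2) K, ((∀ i j, Y i j ≠ 0) ∧ Y.det ≠ 0) →
      North (d := 1) Y ∧ ((∀ i j, rot (d := 1) Y i j ≠ 0) ∧ (rot (d := 1) Y).det ≠ 0) := by
    rintro Y ⟨h1, h2⟩
    exact ⟨north2_mk (fun j => h1 0 j) h2, fun i j => h1 _ _, by
      rw [det_rot2]; exact neg_ne_zero.mpr h2⟩
  constructor
  · intro h
    by_cases h0 : X = 0
    · left; exact h0
    · right
      refine ⟨?_, North.det_ne h.1 (border h h0)⟩
      have b0 := border h h0
      have b2 := border h.rot.rot (rot_ne (rot_ne h0))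
      simp only [rot, show Fin.rev (0 : Fin 2) = 1 from rfl] at b2
      intro i j
      fin_cases i
      · exact b0 j
      · have := b2 (Fin.rev j)
        simpa using this
  · rintro (rfl | h)
    · refine fourWay_zero_iff.mpr ⟨![0, 1], ?_⟩
      intro i j hij
      fin_cases i <;> fin_cases j <;> simp at hij ⊢
    · have k0 := key X h
      have k1 := key _ k0.2
      have k2 := key _ k1.2
      have k3 := key _ k2.2
      exact ⟨k0.1, k1.1, k2.1, k3.1⟩

theorem fourWay1 (X : Matrix (Fin 1) (Fin 1) K) : FourWay (d := 0) X := by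
  have key : ∀ Y : Matrix (Fin 1) (Fin 1) K, North (d := 0) Y := by
    intro Y
    refine ⟨fun _ => 0, fun _ => 1, fun a b _ => ?_, ?_, ?_⟩
    · exact (Fin.eq_zero (n := a)).trans (Fin.eq_zero (n := b)).symm
    · intro i
      have : i = 0 := Fin.eq_zero _
      subst this; simp
    · intro i j
      have : i = 0 := Fin.eq_zero _
      subst this; simp
  exact ⟨key _, key _, key _, key _⟩

theorem fourWay_border {d : ℕ} {X : Matrix (Fin (d + 1)) (Fin (d + 1)) K} (h : FourWay X)
    (h0 : X ≠ 0) : X.det ≠ 0 ∧ ∀ k, X 0 k ≠ 0 ∧ X (Fin.last d) k ≠ 0 ∧ X k 0 ≠ 0 ∧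
      X k (Fin.last d) ≠ 0 := by
  have b0 := border h h0
  have b1 := border h.rot (rot_ne h0)
  have b2 := border h.rot.rot (rot_ne (rot_ne h0))
  have b3 := border h.rot.rot.rot (rot_ne (rot_ne (rot_ne h0)))
  refine ⟨North.det_ne h.1 b0, fun k => ⟨b0 k, ?_, ?_, ?_⟩⟩
  · simpa [rot] using b2 (Fin.rev k)
  · simpa [rot] using b3 (Fin.rev k)
  · simpa [rot] using b1 k

/-- (1) For every `d` and every field, a nonzero matrix that is Vandermonde in all four
directions is invertible and has all border entries nonzero; (2) the zero matrix qualifies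
iff `K` has at least `d+1` elements; (3)-(5) complete explicit lists for `d = 0, 1, 2`. -/
theorem result (K : Type*) [Field K] :
    (∀ (d : ℕ) (X : Matrix (Fin (d + 1)) (Fin (d + 1)) K), FourWay X → X ≠ 0 →
      X.det ≠ 0 ∧ ∀ k, X 0 k ≠ 0 ∧ X (Fin.last d) k ≠ 0 ∧ X k 0 ≠ 0 ∧ X k (Fin.last d) ≠ 0) ∧
    (∀ d : ℕ, FourWay (0 : Matrix (Fin (d + 1)) (Fin (d + 1)) K) ↔
      ∃ θ : Fin (d + 1) → K, Function.Injective θ) ∧
    (∀ X : Matrix (Fin 1) (Fin 1) K, FourWay (d := 0) X) ∧
    (∀ X : Matrix (Fin 2) (Fin 2) K, FourWay (d := 1) X ↔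
      X = 0 ∨ ((∀ i j, X i j ≠ 0) ∧ X.det ≠ 0)) ∧
    (∀ X : Matrix (Fin 3) (Fin 3) K, FourWay (d := 2) X ↔
      (X = 0 ∧ ∃ θ : Fin 3 → K, Function.Injective θ) ∨
        ((∀ i j : Fin 3, ¬ (i = 1 ∧ j = 1) → X i j ≠ 0) ∧
          (∀ i i' j j' : Fin 3, i < i' → j < j' → ¬ (i = 0 ∧ i' = 2 ∧ j = 0 ∧ j' = 2) →
            X i j * X i' j' - X i j' * X i' j ≠ 0) ∧ X.det ≠ 0)) :=
  ⟨fun _ _ h h0 => fourWay_border h h0, fun _ => fourWay_zero_iff, fourWay1, fourWay2_iff,
    fourWay3_iff⟩

end Pool.Agent.Results.MP_511af2_al.SmallD
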